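import Mathlib

/-!
# A hereditary class of graphs whose counting function is not MC-finite

Q1 of MP_602553_lc asks for a substructure-closed class of finite structures in an at most binary
vocabulary whose Specker function is not MC-finite.  We find such a class of finite simple graphs.

For odd `k ≥ 3` let `A_k` be the blow-up of the cycle of length `k` in which the `i`-th vertex
(`i < k`) is replaced by an independent set of size `2^i`; it has `2^k - 1` vertices.  By an odd
girth argument `A_k` does not embed into `A_j` for `k < j`.  The group of all permutations of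
the `2^k - 1` vertices acts on the labelled copies of `A_k`, and the stabiliser of `A_k` contains a
product of symmetric groups of degrees `1, 2, 4, ..., 2^(k-1)`.  As the multinomial coefficient
`(2^k - 1)! / (1! 2! 4! ... (2^(k-1))!)` is odd, the number of labelled copies of `A_k` is odd.
Hence the numbers of graphs on `{1, ..., n}` in the class of all induced subgraphs, and in the class
of all proper induced subgraphs, of the `A_k` differ by an odd number if `n = 2^k - 1` for an
odd `k ≥ 3` and by `0` otherwise.  So at least one of the two sequences is not ultimately periodic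
modulo `2`.
-/

namespace Pool.Agent.Results.MP_602553_lc.NotMCFinite

open Finset

/-- A class of finite simple graphs, given by its members with vertex set `Fin n` for all `n`, is
closed under isomorphism and induced subgraphs: if `G` on `Fin n` is in the class and
`f : Fin m → Fin n` is injective then the graph on `Fin m` with `x ~ y` iff `f x ~ f y` in `G` is in
the class. -/
def SubstructureClosed (C : (n : ℕ) → Set (SimpleGraph (Fin n))) : Prop :=
  ∀ (m n : ℕ) (f : Fin m ↪ Fin n) (G : SimpleGraph (Fin n)), G ∈ C n → G.comap f ∈ C m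

/-- The Specker function: the number of labelled members of the class with `n` vertices. -/
noncomputable def specker (C : (n : ℕ) → Set (SimpleGraph (Fin n))) (n : ℕ) : ℤ :=
  (Nat.card (C n) : ℤ)

/-- MC-finiteness of an integer sequence: for every modulus `m ≥ 1` the sequence satisfies
eventually a linear recurrence with constant coefficients modulo `m`. -/
def MCFinite (s : ℕ → ℤ) : Prop :=
  ∀ m : ℕ, 1 ≤ m → ∃ (r p : ℕ) (α : Fin (p + 1) → ℤ), 1 ≤ r ∧ 1 ≤ p ∧
    ∀ n ≥ r, s (n + p + 1) ≡ ∑ i : Fin (p + 1), α i * s (n + i) [ZMOD m]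

/-! ### Periodicity modulo 2 -/

lemma periodic_of_mcFinite {s : ℕ → ℤ} (h : MCFinite s) :
    ∃ N P : ℕ, 1 ≤ P ∧ ∀ n ≥ N, s (n + P) ≡ s n [ZMOD 2] := by
  obtain ⟨r, p, α, -, -, hr⟩ := h 2 (by norm_num)
  let v : ℕ → (Fin (p + 1) → ZMod 2) := fun n i => (s (n + i) : ZMod 2)
  obtain ⟨a, b, hab, hv⟩ := Finite.exists_ne_map_eq_of_infinite (fun n : ℕ => v (r + n))
  have key : ∀ a b : ℕ, a < b → v (r + a) = v (r + b) →
      ∃ N P : ℕ, 1 ≤ P ∧ ∀ n ≥ N, s (n + P) ≡ s n [ZMOD 2] := by
    intro a b hab hv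
    have hstep : ∀ t, v (r + a + t) = v (r + b + t) := by
      intro t
      induction t with
      | zero => exact hv
      | succ t ih =>
        funext i
        refine Fin.lastCases ?_ (fun i => ?_) i
        · have h1 := hr (r + a + t) (by omega)
          have h2 := hr (r + b + t) (by omega)
          have h1' : ((s (r + a + t + p + 1) : ℤ) : ZMod 2) =
              ∑ i : Fin (p + 1), (α i : ZMod 2) * v (r + a + t) i := by
            have := (ZMod.intCast_eq_intCast_iff _ _ 2).2 h1
            rw [this]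
            push_cast
            rfl
          have h2' : ((s (r + b + t + p + 1) : ℤ) : ZMod 2) =
              ∑ i : Fin (p + 1), (α i : ZMod 2) * v (r + b + t) i := by
            have := (ZMod.intCast_eq_intCast_iff _ _ 2).2 h2
            rw [this]
            push_cast
            rfl
          show ((s (r + a + (t + 1) + ((Fin.last p : Fin (p + 1)) : ℕ)) : ℤ) : ZMod 2) =
            ((s (r + b + (t + 1) + ((Fin.last p : Fin (p + 1)) : ℕ)) : ℤ) : ZMod 2)
          have e1 : r + a + (t + 1) + ((Fin.last p : Fin (p + 1)) : ℕ) = r + a + t + p + 1 := by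
            simp only [Fin.val_last]
            omega
          have e2 : r + b + (t + 1) + ((Fin.last p : Fin (p + 1)) : ℕ) = r + b + t + p + 1 := by
            simp only [Fin.val_last]
            omega
          rw [e1, e2, h1', h2', ih]
        · have h1 := congrFun ih i.succ
          show ((s (r + a + (t + 1) + ((i.castSucc : Fin (p + 1)) : ℕ)) : ℤ) : ZMod 2) =
            ((s (r + b + (t + 1) + ((i.castSucc : Fin (p + 1)) : ℕ)) : ℤ) : ZMod 2)
          have h2 : ((s (r + a + t + ((i.succ : Fin (p + 1)) : ℕ)) : ℤ) : ZMod 2) =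
            ((s (r + b + t + ((i.succ : Fin (p + 1)) : ℕ)) : ℤ) : ZMod 2) := h1
          have e1 : r + a + (t + 1) + ((i.castSucc : Fin (p + 1)) : ℕ) =
              r + a + t + ((i.succ : Fin (p + 1)) : ℕ) := by
            simp only [Fin.val_castSucc, Fin.val_succ]
            omega
          have e2 : r + b + (t + 1) + ((i.castSucc : Fin (p + 1)) : ℕ) =
              r + b + t + ((i.succ : Fin (p + 1)) : ℕ) := by
            simp only [Fin.val_castSucc, Fin.val_succ]
            omega
          rw [e1, e2]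
          exact h2
    refine ⟨r + a, b - a, by omega, fun n hn => ?_⟩
    obtain ⟨t, rfl⟩ := Nat.exists_eq_add_of_le hn
    have h1 := congrFun (hstep t) 0
    have h2 : ((s (r + a + t) : ℤ) : ZMod 2) = ((s (r + b + t) : ℤ) : ZMod 2) := by
      simpa [v] using h1
    have e1 : r + a + t + (b - a) = r + b + t := by omega
    rw [e1]
    exact ((ZMod.intCast_eq_intCast_iff _ _ 2).1 h2).symm
  rcases Nat.lt_or_gt_of_ne hab with h1 | h1
  · exact key a b h1 hv
  · exact key b a h1 hv.symm

/-! ### The graphs `A k` -/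

/-- The index of the class of the vertex `x`: the `i` with `2^i ≤ x + 1 < 2^(i+1)`. -/
def col {n : ℕ} (x : Fin n) : ℕ := Nat.log 2 (x + 1)

lemma col_lt {k : ℕ} (x : Fin (2 ^ k - 1)) : col x < k := by
  unfold col
  have h1 : (x : ℕ) + 1 < 2 ^ k := by
    have := x.2
    omega
  exact Nat.log_lt_of_lt_pow (by omega) h1

/-- The blow-up of the `k`-cycle with classes of sizes `1, 2, 4, ..., 2^(k-1)`. -/
def A (k : ℕ) : SimpleGraph (Fin (2 ^ k - 1)) :=
  SimpleGraph.fromRel fun x y => (col x + 1) % k = col y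

lemma A_adj {k : ℕ} (x y : Fin (2 ^ k - 1)) :
    (A k).Adj x y ↔ x ≠ y ∧ ((col x + 1) % k = col y ∨ (col y + 1) % k = col x) := by
  simp [A, SimpleGraph.fromRel_adj]

/-- A vertex in class `i`. -/
def vert (k i : ℕ) (h : i < k) : Fin (2 ^ k - 1) :=
  ⟨2 ^ i - 1, by
    have h1 : 2 ^ i < 2 ^ k := Nat.pow_lt_pow_right (by norm_num) h
    have h2 : 0 < 2 ^ i := by positivity
    omega⟩

lemma col_vert (k i : ℕ) (h : i < k) : col (vert k i h) = i := by
  unfold col vert
  have h2 : 0 < 2 ^ i := by positivity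
  have : 2 ^ i - 1 + 1 = 2 ^ i := by omega
  simp only [this]
  exact Nat.log_pow (by norm_num) i

/-- Sums of an odd number of signs are odd. -/
lemma odd_sum (d : ℕ → ℤ) (hd : ∀ i, d i = 1 ∨ d i = -1) (k : ℕ) :
    (∑ i ∈ range k, d i) % 2 = (k : ℤ) % 2 := by
  induction k with
  | zero => simp
  | succ k ih =>
    rw [Finset.sum_range_succ]
    rcases hd k with h | h <;> rw [h] <;> push_cast <;> omega

lemma abs_sum_le (d : ℕ → ℤ) (hd : ∀ i, d i = 1 ∨ d i = -1) (k : ℕ) :
    |∑ i ∈ range k, d i| ≤ k := by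
  calc |∑ i ∈ range k, d i| ≤ ∑ i ∈ range k, |d i| := Finset.abs_sum_le_sum_abs _ _
    _ ≤ ∑ i ∈ range k, 1 := by
        refine Finset.sum_le_sum fun i _ => ?_
        rcases hd i with h | h <;> rw [h] <;> norm_num
    _ = k := by simp

lemma no_embedding {k j : ℕ} (hk : Odd k) (hk3 : 3 ≤ k) (hkj : k < j) :
    ¬ Nonempty (A k ↪g A j) := by
  rintro ⟨φ⟩
  have hk0 : 0 < k := by omega
  let w : ℕ → Fin (2 ^ j - 1) := fun i => φ (vert k (i % k) (Nat.mod_lt _ hk0))
  have hadj : ∀ i, (A j).Adj (w i) (w (i + 1)) := by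
    intro i
    refine φ.map_adj_iff.2 ?_
    rw [A_adj, col_vert, col_vert]
    have h1 : (i % k + 1) % k = (i + 1) % k := by
      rw [Nat.mod_add_mod]
    refine ⟨?_, Or.inl h1⟩
    intro h
    have h2 := congrArg col h
    rw [col_vert, col_vert, ← h1] at h2
    rcases Nat.lt_or_ge (i % k + 1) k with h3 | h3
    · rw [Nat.mod_eq_of_lt h3] at h2
      omega
    · have h4 : i % k < k := Nat.mod_lt _ hk0
      have h5 : i % k + 1 = k := by omega
      rw [h5, Nat.mod_self] at h2
      omega
  -- the differences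
  have hd : ∀ i, ∃ d : ℤ, (d = 1 ∨ d = -1) ∧
      (col (w (i + 1)) : ℤ) ≡ col (w i) + d [ZMOD j] := by
    intro i
    have h1 := (A_adj _ _).1 (hadj i)
    rcases h1.2 with h2 | h2
    · refine ⟨1, Or.inl rfl, ?_⟩
      rw [← h2]
      push_cast
      exact Int.mod_modEq _ _
    · refine ⟨-1, Or.inr rfl, ?_⟩
      rw [← h2]
      push_cast
      have h3 : ((col (w (i + 1)) : ℤ) + 1) % j ≡ col (w (i + 1)) + 1 [ZMOD j] :=
        Int.mod_modEq _ _
      have h4 := (h3.add_right (-1)).symm
      have h5 : (col (w (i + 1)) : ℤ) + 1 + -1 = col (w (i + 1)) := by ring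
      rw [h5] at h4
      exact h4
  choose d hd1 hd2 using hd
  have hsum : ∀ t : ℕ, (col (w t) : ℤ) ≡ col (w 0) + ∑ i ∈ range t, d i [ZMOD j] := by
    intro t
    induction t with
    | zero => simp
    | succ t ih =>
      rw [Finset.sum_range_succ, ← add_assoc]
      exact (hd2 t).trans (ih.add_right _)
  have h1 := hsum k
  have h2 : w k = w 0 := by
    simp only [w]
    congr 1
    simp [vert]
  rw [h2] at h1
  have h3 : (∑ i ∈ range k, d i) ≡ 0 [ZMOD j] := by
    have h4 : (col (w 0) : ℤ) + 0 ≡ col (w 0) + ∑ i ∈ range k, d i [ZMOD j] := by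
      simpa using h1
    exact (Int.ModEq.add_left_cancel' _ h4).symm
  have h4 := abs_sum_le d hd1 k
  have h5 := odd_sum d hd1 k
  have h6 : (∑ i ∈ range k, d i) = 0 := by
    obtain ⟨c, hc⟩ := Int.modEq_zero_iff_dvd.1 h3
    rw [hc] at h4 ⊢
    by_contra hne
    have hc0 : c ≠ 0 := by
      rintro rfl
      simp at hne
    have h7 : (j : ℤ) ≤ |(j : ℤ) * c| := by
      rw [abs_mul]
      have h8 : (1 : ℤ) ≤ |c| := Int.one_le_abs hc0
      have h9 : |(j : ℤ)| = j := abs_of_nonneg (by positivity)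
      rw [h9]
      nlinarith [h8, (Int.natCast_nonneg j)]
    have h10 : (k : ℤ) < j := by exact_mod_cast hkj
    linarith
  rw [h6] at h5
  obtain ⟨c, hc⟩ := hk
  omega

/-! ### The number of labelled copies of `A k` is odd -/

lemma odd_choose (k : ℕ) : ∀ j, j ≤ 2 ^ k - 1 → Odd ((2 ^ k - 1).choose j) := by
  induction k with
  | zero =>
    intro j hj
    have : j = 0 := by simpa using hj
    subst this
    simp
  | succ k ih =>
    intro j hj
    have h2 : 0 < 2 ^ k := by positivity
    have e1 : (2 ^ (k + 1) - 1) % 2 = 1 := by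
      rw [pow_succ]
      omega
    have e2 : (2 ^ (k + 1) - 1) / 2 = 2 ^ k - 1 := by
      rw [pow_succ]
      omega
    have h1 := @Choose.choose_modEq_choose_mod_mul_choose_div_nat (2 ^ (k + 1) - 1) j 2
      ⟨Nat.prime_two⟩
    rw [e1, e2] at h1
    have h3 : Odd ((2 ^ k - 1).choose (j / 2)) := by
      apply ih
      rw [pow_succ] at hj
      omega
    have h4 : Nat.choose 1 (j % 2) = 1 := by
      rcases Nat.mod_two_eq_zero_or_one j with h | h <;> rw [h] <;> rfl
    rw [h4, one_mul] at h1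
    rw [Nat.odd_iff] at h3 ⊢
    have h5 : ((2 ^ (k + 1) - 1).choose j) % 2 = ((2 ^ k - 1).choose (j / 2)) % 2 := h1
    rw [h5, h3]

lemma exists_odd_factor (k : ℕ) :
    ∃ t, Odd t ∧ (2 ^ k - 1).factorial = t * ∏ i : Fin k, (2 ^ (i : ℕ)).factorial := by
  induction k with
  | zero => exact ⟨1, by simp, by simp⟩
  | succ k ih =>
    obtain ⟨t, ht, hf⟩ := ih
    have h2 : 0 < 2 ^ k := by positivity
    have hle : 2 ^ k ≤ 2 ^ (k + 1) - 1 := by
      rw [pow_succ]
      omega
    have h1 := Nat.choose_mul_factorial_mul_factorial hle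
    have e1 : 2 ^ (k + 1) - 1 - 2 ^ k = 2 ^ k - 1 := by
      rw [pow_succ]
      omega
    rw [e1, hf] at h1
    refine ⟨(2 ^ (k + 1) - 1).choose (2 ^ k) * t, (odd_choose (k + 1) _ hle).mul ht, ?_⟩
    rw [← h1, Fin.prod_univ_castSucc]
    simp only [Fin.val_castSucc, Fin.val_last]
    ring

/-- Permutations of the vertices act on graphs. -/
local instance permAction (V : Type) : MulAction (Equiv.Perm V) (SimpleGraph V) where
  smul σ G := G.comap σ.symm
  one_smul G := by
    ext x y
    rfl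
  mul_smul σ τ G := by
    ext x y
    rfl

lemma smul_adj {V : Type} (σ : Equiv.Perm V) (G : SimpleGraph V) (x y : V) :
    (σ • G).Adj x y ↔ G.Adj (σ.symm x) (σ.symm y) := Iff.rfl

lemma orbit_eq {V : Type} (G : SimpleGraph V) :
    MulAction.orbit (Equiv.Perm V) G = {H | Nonempty (H ≃g G)} := by
  ext H
  constructor
  · rintro ⟨σ, rfl⟩
    exact ⟨⟨σ.symm, by
      intro x y
      rfl⟩⟩
  · rintro ⟨e⟩
    refine ⟨e.toEquiv.symm, ?_⟩
    ext x y
    show (e.toEquiv.symm • G).Adj x y ↔ H.Adj x y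
    rw [smul_adj]
    exact e.map_adj_iff

/-- The class of a vertex of `A k`, as an element of `Fin k`. -/
def colF (k : ℕ) (x : Fin (2 ^ k - 1)) : Fin k := ⟨col x, col_lt x⟩

lemma card_fibre (k : ℕ) (i : Fin k) : Set.ncard {a | colF k a = i} = 2 ^ (i : ℕ) := by
  have hpos : 0 < 2 ^ (i : ℕ) := by positivity
  have hle : 2 ^ ((i : ℕ) + 1) ≤ 2 ^ k := Nat.pow_le_pow_right (by norm_num) i.2
  have hps : 2 ^ ((i : ℕ) + 1) = 2 * 2 ^ (i : ℕ) := by rw [pow_succ]; ring
  let f : Fin (2 ^ (i : ℕ)) → Fin (2 ^ k - 1) := fun t => ⟨2 ^ (i : ℕ) - 1 + t, by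
    have := t.2
    omega⟩
  have hf : Function.Injective f := by
    intro s t hst
    have := congrArg (fun z : Fin (2 ^ k - 1) => (z : ℕ)) hst
    simp only [f] at this
    exact Fin.ext (by omega)
  have hr : {a | colF k a = i} = Set.range f := by
    ext a
    simp only [Set.mem_ofPred_eq, Set.mem_range]
    have h0 : colF k a = i ↔ col a = (i : ℕ) := by
      simp [colF, Fin.ext_iff]
    rw [h0]
    unfold col
    rw [Nat.log_eq_iff (Or.inr ⟨by norm_num, by omega⟩)]
    constructor
    · rintro ⟨h1, h2⟩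
      refine ⟨⟨(a : ℕ) + 1 - 2 ^ (i : ℕ), by omega⟩, ?_⟩
      apply Fin.ext
      simp only [f]
      omega
    · rintro ⟨t, rfl⟩
      have := t.2
      simp only [f]
      omega
  rw [hr, ← Nat.card_coe_set_eq, Nat.card_range_of_injective hf]
  simp

lemma odd_copies (k : ℕ) : Odd (Nat.card {H : SimpleGraph (Fin (2 ^ k - 1)) | Nonempty (H ≃g A k)}) := by
  classical
  rw [← orbit_eq]
  have h1 : Nat.card (MulAction.orbit (Equiv.Perm (Fin (2 ^ k - 1))) (A k)) *
      Nat.card (MulAction.stabilizer (Equiv.Perm (Fin (2 ^ k - 1))) (A k)) =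
        (2 ^ k - 1).factorial := by
    rw [← Nat.card_prod, Nat.card_congr (MulAction.orbitProdStabilizerEquivGroup _ _)]
    rw [Nat.card_perm, Nat.card_fin]
  -- the subgroup preserving the classes
  let H : Subgroup (Equiv.Perm (Fin (2 ^ k - 1))) :=
    { carrier := {g | colF k ∘ g = colF k}
      one_mem' := rfl
      mul_mem' := by
        intro g h hg hh
        show colF k ∘ (g * h) = colF k
        funext x
        have h1 := congrFun hg (h x)
        have h2 := congrFun hh x
        simp only [Function.comp_apply] at h1 h2 ⊢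
        rw [Equiv.Perm.mul_apply, h1, h2]
      inv_mem' := by
        intro g hg
        show colF k ∘ (g⁻¹ : Equiv.Perm _) = colF k
        funext x
        have h1 : colF k (g (g⁻¹ x)) = colF k (g⁻¹ x) := congrFun hg (g⁻¹ x)
        have e : g (g⁻¹ x) = x := by simp
        rw [e] at h1
        exact h1.symm }
  have hH : Nat.card H = ∏ i : Fin k, (2 ^ (i : ℕ)).factorial := by
    have h2 := DomMulAct.stabilizer_ncard (colF k)
    rw [Set.ncard_eq_toFinset_card'] at h2
    have h3 : Nat.card H = Set.ncard {g : Equiv.Perm (Fin (2 ^ k - 1)) | colF k ∘ g = colF k} := by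
      rw [← Nat.card_coe_set_eq]
      rfl
    rw [h3, DomMulAct.stabilizer_ncard]
    exact Finset.prod_congr rfl fun i _ => by rw [card_fibre]
  have hle : H ≤ MulAction.stabilizer (Equiv.Perm (Fin (2 ^ k - 1))) (A k) := by
    intro g hg
    rw [MulAction.mem_stabilizer_iff]
    have hc : ∀ x, col (g.symm x) = col x := by
      intro x
      have h2 : colF k (g (g.symm x)) = colF k (g.symm x) := congrFun hg (g.symm x)
      rw [Equiv.apply_symm_apply] at h2
      have h3 := congrArg (fun z : Fin k => (z : ℕ)) h2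
      exact h3.symm
    ext x y
    rw [smul_adj, A_adj, A_adj, hc, hc]
    simp
  obtain ⟨u, hu⟩ := Subgroup.card_dvd_of_le hle
  obtain ⟨t, ht, hf⟩ := exists_odd_factor k
  rw [hu, hH, hf] at h1
  have hpos : 0 < ∏ i : Fin k, (2 ^ (i : ℕ)).factorial :=
    Finset.prod_pos fun i _ => Nat.factorial_pos _
  have h4 : Nat.card (MulAction.orbit (Equiv.Perm (Fin (2 ^ k - 1))) (A k)) * u = t := by
    have h5 : (Nat.card (MulAction.orbit (Equiv.Perm (Fin (2 ^ k - 1))) (A k)) * u) *
        ∏ i : Fin k, (2 ^ (i : ℕ)).factorial = t * ∏ i : Fin k, (2 ^ (i : ℕ)).factorial := by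
      rw [← h1]
      ring
    exact Nat.eq_of_mul_eq_mul_right hpos h5
  rw [← h4] at ht
  exact (Nat.odd_mul.1 ht).1

/-! ### The two classes -/

/-- All induced subgraphs of the graphs `A k`, `k ≥ 3` odd. -/
def allCls (n : ℕ) : Set (SimpleGraph (Fin n)) :=
  {G | ∃ k, Odd k ∧ 3 ≤ k ∧ Nonempty (G ↪g A k)}

/-- All proper induced subgraphs of the graphs `A k`, `k ≥ 3` odd. -/
def propCls (n : ℕ) : Set (SimpleGraph (Fin n)) :=
  {G | ∃ k, Odd k ∧ 3 ≤ k ∧ n < 2 ^ k - 1 ∧ Nonempty (G ↪g A k)}

lemma card_le_of_embedding {n m : ℕ} {G : SimpleGraph (Fin n)} {H : SimpleGraph (Fin m)}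
    (φ : G ↪g H) : n ≤ m := by
  have := Fintype.card_le_of_injective φ φ.injective
  simpa using this

lemma all_closed : SubstructureClosed allCls := by
  rintro m n f G ⟨k, hk, hk3, ⟨φ⟩⟩
  exact ⟨k, hk, hk3, ⟨(SimpleGraph.Embedding.comap f G).trans φ⟩⟩

lemma prop_closed : SubstructureClosed propCls := by
  rintro m n f G ⟨k, hk, hk3, hn, ⟨φ⟩⟩
  have hmn : m ≤ n := card_le_of_embedding (SimpleGraph.Embedding.comap f G)
  exact ⟨k, hk, hk3, by omega, ⟨(SimpleGraph.Embedding.comap f G).trans φ⟩⟩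

lemma prop_subset (n : ℕ) : propCls n ⊆ allCls n := by
  rintro G ⟨k, hk, hk3, -, h⟩
  exact ⟨k, hk, hk3, h⟩

lemma diff_eq {k : ℕ} (hk : Odd k) (hk3 : 3 ≤ k) :
    allCls (2 ^ k - 1) \ propCls (2 ^ k - 1) = {H | Nonempty (H ≃g A k)} := by
  have hpow : ∀ j : ℕ, 0 < 2 ^ j := fun j => by positivity
  ext G
  constructor
  · rintro ⟨⟨j, hj, hj3, ⟨φ⟩⟩, h2⟩
    have h3 : 2 ^ k - 1 ≤ 2 ^ j - 1 := card_le_of_embedding φ
    have h4 : ¬ 2 ^ k - 1 < 2 ^ j - 1 := fun h => h2 ⟨j, hj, hj3, h, ⟨φ⟩⟩
    have h5 : 2 ^ k = 2 ^ j := by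
      have := hpow k
      have := hpow j
      omega
    have h6 : k = j := Nat.pow_right_injective le_rfl h5
    subst h6
    have hbij : Function.Bijective φ := (Finite.injective_iff_bijective).1 φ.injective
    exact ⟨⟨Equiv.ofBijective φ hbij, fun {a b} => φ.map_adj_iff⟩⟩
  · rintro ⟨e⟩
    refine ⟨⟨k, hk, hk3, ⟨e.toEmbedding⟩⟩, ?_⟩
    rintro ⟨j, hj, hj3, hlt, ⟨φ⟩⟩
    have h1 : k < j := by
      by_contra hcon
      have : 2 ^ j ≤ 2 ^ k := Nat.pow_le_pow_right (by norm_num) (by omega)
      omega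
    exact no_embedding hk hk3 h1 ⟨e.symm.toEmbedding.trans φ⟩

lemma diff_empty {n : ℕ} (h : ∀ k, Odd k → 3 ≤ k → n ≠ 2 ^ k - 1) :
    allCls n \ propCls n = ∅ := by
  ext G
  simp only [Set.mem_sdiff, Set.mem_empty_iff_false, iff_false, not_and, not_not]
  rintro ⟨k, hk, hk3, ⟨φ⟩⟩
  have h1 := card_le_of_embedding φ
  have h2 := h k hk hk3
  exact ⟨k, hk, hk3, by omega, ⟨φ⟩⟩

lemma specker_diff (n : ℕ) :
    specker allCls n - specker propCls n = (Nat.card (allCls n \ propCls n : Set _) : ℤ) := by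
  classical
  have h1 := Set.ncard_sdiff_add_ncard_of_subset (prop_subset n) (Set.toFinite _)
  unfold specker
  rw [Nat.card_coe_set_eq, Nat.card_coe_set_eq, Nat.card_coe_set_eq]
  rw [← h1]
  push_cast
  ring

lemma odd_diff {k : ℕ} (hk : Odd k) (hk3 : 3 ≤ k) :
    (specker allCls (2 ^ k - 1) - specker propCls (2 ^ k - 1)) % 2 = 1 := by
  rw [specker_diff, diff_eq hk hk3]
  have h1 := odd_copies k
  rw [Nat.odd_iff] at h1
  exact_mod_cast h1

lemma even_diff {n : ℕ} (h : ∀ k, Odd k → 3 ≤ k → n ≠ 2 ^ k - 1) :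
    (specker allCls n - specker propCls n) % 2 = 0 := by
  rw [specker_diff, diff_empty h]
  simp

/-- **Positive answer to Q1 of MP_602553_lc.**  There is a substructure-closed class of finite
simple graphs (structures with one binary relation) whose Specker function is not MC-finite. -/
theorem result : ∃ C : (n : ℕ) → Set (SimpleGraph (Fin n)),
    SubstructureClosed C ∧ ¬ MCFinite (specker C) := by
  by_contra hcon
  push Not at hcon
  obtain ⟨N₁, P₁, hP₁, h₁⟩ := periodic_of_mcFinite (hcon allCls all_closed)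
  obtain ⟨N₂, P₂, hP₂, h₂⟩ := periodic_of_mcFinite (hcon propCls prop_closed)
  have hmul : ∀ (s : ℕ → ℤ) (N P : ℕ), (∀ n ≥ N, s (n + P) ≡ s n [ZMOD 2]) →
      ∀ t n, N ≤ n → s (n + t * P) ≡ s n [ZMOD 2] := by
    intro s N P h t
    induction t with
    | zero => intro n _; simp
    | succ t ih =>
      intro n hn
      have e1 : n + (t + 1) * P = n + t * P + P := by ring
      rw [e1]
      exact (h _ (by omega)).trans (ih n hn)
  have hper : ∀ n, max N₁ N₂ ≤ n →
      specker allCls (n + P₁ * P₂) - specker propCls (n + P₁ * P₂) ≡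
        specker allCls n - specker propCls n [ZMOD 2] := by
    intro n hn
    refine Int.ModEq.sub ?_ ?_
    · rw [mul_comm P₁ P₂]
      exact hmul _ _ _ h₁ P₂ n (le_trans (le_max_left _ _) hn)
    · exact hmul _ _ _ h₂ P₁ n (le_trans (le_max_right _ _) hn)
  -- a large odd `k`
  let k : ℕ := 2 * (max N₁ N₂ + P₁ * P₂) + 3
  have hk : Odd k := ⟨max N₁ N₂ + P₁ * P₂ + 1, by simp only [k]; ring⟩
  have hk3 : 3 ≤ k := by simp only [k]; omega
  have hklt : k < 2 ^ k := Nat.lt_two_pow_self
  have h3 := hper (2 ^ k - 1) (by simp only [k] at hklt ⊢; omega)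
  have h4 := odd_diff hk hk3
  have h5 : (specker allCls (2 ^ k - 1 + P₁ * P₂) -
      specker propCls (2 ^ k - 1 + P₁ * P₂)) % 2 = 1 := by
    rw [← h4]
    exact h3
  by_cases hex : ∃ j, Odd j ∧ 3 ≤ j ∧ 2 ^ k - 1 + P₁ * P₂ = 2 ^ j - 1
  · obtain ⟨j, -, -, hj⟩ := hex
    have hP : 1 ≤ P₁ * P₂ := Nat.mul_pos hP₁ hP₂
    have hkj : k < j := by
      by_contra hcon
      have : 2 ^ j ≤ 2 ^ k := Nat.pow_le_pow_right (by norm_num) (by omega)
      omega
    have h6 : 2 ^ (k + 1) ≤ 2 ^ j := Nat.pow_le_pow_right (by norm_num) hkj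
    have h7 : 2 ^ (k + 1) = 2 * 2 ^ k := by rw [pow_succ]; ring
    simp only [k] at hklt h6 h7 hj
    omega
  · push Not at hex
    have h6 := even_diff (n := 2 ^ k - 1 + P₁ * P₂) (fun j hj hj3 => hex j hj hj3)
    omega

end Pool.Agent.Results.MP_602553_lc.NotMCFinite
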